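import Pool.Agent.Y661.HE.Stm

/-!
# Project HE, piece PT: McDiarmid for local functions of infinitely many bounded variables
-/

set_option autoImplicit false

open scoped BigOperators ENNReal
open MeasureTheory Filter

namespace Pool.Agent.Y977.HE.PT

open Pool.Agent.Y661.HE
open Pool.Agent.H12R2.And (V)
open Pool.Agent.H4R2.HU (cl S_UT)

theorem cl_abs {c : ℝ} (hc : 0 ≤ c) (t : ℝ) : |cl c t| ≤ c := by
  unfold cl
  rw [abs_le]
  exact ⟨le_max_left _ _, max_le (by linarith) (min_le_left _ _)⟩

theorem cl_eq {c t : ℝ} (h : |t| ≤ c) : cl c t = t := by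
  unfold cl
  rw [abs_le] at h
  rw [min_eq_right h.2, max_eq_right h.1]

theorem cl_meas (c : ℝ) : Measurable (cl c) := by
  unfold cl
  exact measurable_const.max (measurable_const.min measurable_id)

/-- extension -/
noncomputable def ex {d : ℕ} (F : Finset (V d)) (c : ℝ) (W : F → ℝ) (x : V d) : ℝ :=
  if h : x ∈ F then cl c (W ⟨x, h⟩) else 0

theorem ex_bd {d : ℕ} (F : Finset (V d)) {c : ℝ} (hc : 0 ≤ c) (W : F → ℝ) : Bd c (ex F c W) := by
  intro x
  unfold ex
  split_ifs
  · exact cl_abs hc _
  · simpa using hc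

theorem ex_meas {d : ℕ} (F : Finset (V d)) (c : ℝ) : Measurable (ex F c) := by
  refine measurable_pi_lambda _ fun x => ?_
  unfold ex
  by_cases h : x ∈ F
  · simp only [h, dif_pos]
    exact (cl_meas c).comp (measurable_pi_apply _)
  · simp only [h, dif_neg, not_false_eq_true]
    exact measurable_const

theorem ex_update {d : ℕ} (F : Finset (V d)) (c : ℝ) (W : F → ℝ) (z : F) (s : ℝ) :
    ex F c (Function.update W z s) = Function.update (ex F c W) z.1 (cl c s) := by
  funext x
  by_cases hx : x = z.1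
  · subst hx
    simp [ex]
  · rw [Function.update_of_ne hx]
    unfold ex
    by_cases h : x ∈ F
    · have hne : (⟨x, h⟩ : F) ≠ z := fun e => hx (by rw [← e])
      rw [dif_pos h, dif_pos h, Function.update_of_ne hne]
    · rw [dif_neg h, dif_neg h]

theorem ex_restrict {d : ℕ} (F : Finset (V d)) {c : ℝ} {W : V d → ℝ} (h : ∀ x ∈ F, |W x| ≤ c) :
    ∀ x ∈ F, W x = ex F c (F.restrict W) x := by
  intro x hx
  unfold ex
  rw [dif_pos hx, Finset.restrict_def]
  exact (cl_eq (h x hx)).symm

theorem main (hUT : S_UT) : S_PT := by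
  intro d μ _ c F f b S t hμ hf hloc hM hinf hb hS ht
  have hc : 0 ≤ c := by
    obtain ⟨s, hs⟩ := hμ.exists
    exact (abs_nonneg s).trans hs
  obtain ⟨M, hM⟩ := hM
  set Φ : (F → ℝ) → ℝ := fun W => f (ex F c W) with hΦ
  have hΦm : Measurable Φ := hf.comp (ex_meas F c)
  have hΦM : ∀ W, |Φ W| ≤ M := fun W => hM _ (ex_bd F hc W)
  have hΦi : ∀ (z : F) (W : F → ℝ) (s s' : ℝ),
      |Φ (Function.update W z s) - Φ (Function.update W z s')| ≤ b z.1 := by
    intro z W s s'
    simp only [hΦ]
    rw [ex_update, ex_update]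
    exact hinf z.1 z.2 _ _ _ (ex_bd F hc W) (cl_abs hc _) (cl_abs hc _)
  have hsum : ∑ z : F, b z.1 ^ 2 ≤ S := by
    rw [Finset.sum_coe_sort F (fun z => b z ^ 2)]
    exact hb
  -- the law of the restriction
  have hlaw : (PI d μ).map F.restrict = Measure.pi fun _ : F => μ := by
    unfold PI
    exact Measure.infinitePi_map_restrict _
  have hae : ∀ᵐ W ∂(PI d μ), f W = Φ (F.restrict W) := by
    have h1 : ∀ x ∈ F, ∀ᵐ W ∂(PI d μ), |W x| ≤ c := by
      intro x _
      have h2 : (PI d μ).map (fun W : V d → ℝ => W x) = μ := by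
        unfold PI
        exact Measure.infinitePi_map_eval (fun _ : Fin d → ℤ => μ) x
      rw [← h2] at hμ
      exact ae_of_ae_map (measurable_pi_apply x).aemeasurable hμ
    have h3 : ∀ᵐ W ∂(PI d μ), ∀ x ∈ F, |W x| ≤ c := (Filter.eventually_all_finset F).2 h1
    filter_upwards [h3] with W hW
    exact hloc _ _ (ex_restrict F hW)
  have hint : ∫ W', f W' ∂(PI d μ) = ∫ W', Φ W' ∂(Measure.pi fun _ : F => μ) := by
    rw [← hlaw, integral_map (Finset.measurable_restrict F).aemeasurable
      hΦm.aestronglyMeasurable]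
    exact integral_congr_ae hae
  set m := ∫ W', Φ W' ∂(Measure.pi fun _ : F => μ) with hm
  have hA := hUT μ Φ (fun z => b z.1) S t hΦm ⟨M, hΦM⟩ hΦi hsum hS ht
  have hB := hUT μ (fun W => -Φ W) (fun z => b z.1) S t hΦm.neg
    ⟨M, fun W => by rw [abs_neg]; exact hΦM W⟩
    (fun z W s s' => by
      have := hΦi z W s s'
      rw [← abs_neg] at this
      have e : -(Φ (Function.update W z s) - Φ (Function.update W z s')) =
        -Φ (Function.update W z s) - -Φ (Function.update W z s') := by ring
      rw [e] at this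
      exact this) hsum hS ht
  rw [integral_neg, ← hm] at hB
  rw [← hm] at hA
  have hset : (PI d μ).real {W | t < |f W - ∫ W', f W' ∂(PI d μ)|} =
      (Measure.pi fun _ : F => μ).real {W | t < |Φ W - m|} := by
    have hms : MeasurableSet {W : F → ℝ | t < |Φ W - m|} := by
      have h4 : Measurable fun W : F → ℝ => |Φ W - m| :=
        continuous_abs.measurable.comp (hΦm.sub_const m)
      exact measurableSet_lt measurable_const h4
    rw [hint, ← hlaw, measureReal_def, measureReal_def, Measure.map_apply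
      (Finset.measurable_restrict F) hms]
    congr 1
    refine measure_congr (Filter.eventuallyEq_set.2 ?_)
    filter_upwards [hae] with W hW
    simp only [Set.mem_preimage, Set.mem_ofPred_eq, hW]
  rw [hset]
  have hsub : {W : F → ℝ | t < |Φ W - m|} ⊆ {W | m + t < Φ W} ∪ {W | -m + t < -Φ W} := by
    intro W hW
    simp only [Set.mem_ofPred_eq, Set.mem_union] at hW ⊢
    rcases lt_abs.1 hW with h | h
    · left; linarith
    · right; linarith
  calc _ ≤ (Measure.pi fun _ : F => μ).real ({W | m + t < Φ W} ∪ {W | -m + t < -Φ W}) :=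
        measureReal_mono hsub (measure_ne_top _ _)
    _ ≤ _ := measureReal_union_le _ _
    _ ≤ Real.exp (-(2 * t ^ 2 / S)) + Real.exp (-(2 * t ^ 2 / S)) := add_le_add hA hB
    _ = _ := by ring

end Pool.Agent.Y977.HE.PT
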